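import Pool.Agent.SHA.StmtsB
import Pool.Agent.Helper92_SHA.ANA

/-!
# SHA, rows B_ANB and B_UPL
-/

set_option autoImplicit false

namespace Pool.Agent.SHA.H17

open Pool.Agent.Helper18_Helly Pool.Agent.SHA Pool.Agent.SHA.H92

universe u

theorem fr_nonneg {p q : ℝ} (hp : 0 ≤ p) (hp1 : p < 1) (hq1 : q < 1) : 0 ≤ fr p q := by
  unfold fr
  exact div_nonneg (by linarith) (pw_lt hp hp1 hq1).le

/-- **B_ANB** -/
theorem anb : ANBStmt := by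
  intro s n₁ n₂ r₁ r₂ e₁ e₂ hs h1 h2 hr1 hr1' hr2 hr2' he1 he2 c1 c2
  have hs' : (1 : ℝ) ≤ s := by exact_mod_cast hs
  have hs0 : (0 : ℝ) < s := by linarith
  obtain ⟨a1, a2⟩ := ratio_props s n₁ hs h1
  obtain ⟨b1, b2⟩ := ratio_props s n₂ hs h2
  rw [lead_eq s n₁ n₂ hs h1 h2]
  rcases eq_or_lt_of_le hs' with h0 | h0
  · rw [← h0]
    have := fr_nonneg a1 a2 b2
    linarith
  have hS : 0 < (s : ℝ) - 1 := by linarith
  have hu : 0 ≤ ((s : ℝ) - 1) / s := div_nonneg hS.le hs0.le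
  have hu1 : ((s : ℝ) - 1) / s ≤ 1 := by
    rw [div_le_one hs0]
    linarith
  have m1 : 0 ≤ ((s : ℝ) - 1) / s * ratio s n₁ := mul_nonneg hu a1
  have m1' : ((s : ℝ) - 1) / s * ratio s n₁ < 1 := by
    have := mul_le_mul_of_nonneg_right hu1 a1
    linarith
  have m2 : 0 ≤ ((s : ℝ) - 1) / s * ratio s n₂ := mul_nonneg hu b1
  have m2' : ((s : ℝ) - 1) / s * ratio s n₂ < 1 := by
    have := mul_le_mul_of_nonneg_right hu1 b1
    linarith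
  have t1 : ((s : ℝ) - 1) / s * ratio s n₁ ≤ r₁ + e₁ / ((s : ℝ) - 1) := by
    have : ((s : ℝ) - 1) / s * ratio s n₁ - r₁ ≤ e₁ / ((s : ℝ) - 1) := by
      rw [le_div_iff₀ hS]
      linarith
    linarith
  have t2 : ((s : ℝ) - 1) / s * ratio s n₂ ≤ r₂ + e₂ / ((s : ℝ) - 1) := by
    have : ((s : ℝ) - 1) / s * ratio s n₂ - r₂ ≤ e₂ / ((s : ℝ) - 1) := by
      rw [le_div_iff₀ hS]
      linarith
    linarith
  have s1 := fr_step hr1 hr1' m1 m1' hr2 hr2' (div_nonneg he1 hS.le) t1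
  have s2 := fr_step hr2 hr2' m2 m2' m1 m1' (div_nonneg he2 hS.le) t2
  rw [fr_comm r₂, fr_comm (((s : ℝ) - 1) / s * ratio s n₂)] at s2
  have s3 := scale hu hu1 a1 a2 b1 b2
  have s4 : fr r₁ r₂ ≤
      fr (((s : ℝ) - 1) / s * ratio s n₁) (((s : ℝ) - 1) / s * ratio s n₂) +
        e₁ / ((s : ℝ) - 1) + e₂ / ((s : ℝ) - 1) := by linarith
  have s5 := mul_le_mul_of_nonneg_left s4 hS.le
  have s6 := mul_le_mul_of_nonneg_left s3 hs0.le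
  have s7 : (s : ℝ) * (((s : ℝ) - 1) / s * fr (((s : ℝ) - 1) / s * ratio s n₁)
      (((s : ℝ) - 1) / s * ratio s n₂)) = ((s : ℝ) - 1) * fr (((s : ℝ) - 1) / s * ratio s n₁)
      (((s : ℝ) - 1) / s * ratio s n₂) := by
    rw [← mul_assoc, mul_div_cancel₀ _ hs0.ne']
  rw [s7] at s6
  rw [mul_add, mul_add, mul_div_cancel₀ _ hS.ne', mul_div_cancel₀ _ hS.ne'] at s5
  linarith

/-- the case of the minimum -/
theorem upl_min {s a : ℕ} {n₁ n₂ : ℕ∞} {c : ℝ} (hs : 1 ≤ s) (h1 : (s : ℕ∞) ≤ n₁)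
    (h2 : (s : ℕ∞) ≤ n₂) (hc : (s : ℝ) + a ≤ c)
    (h : min n₁ n₂ < ((s + a : ℕ) : ℕ∞)) :
    ∃ v : ℕ, IsValue.{u} s n₁ n₂ (v : ℕ∞) ∧ (v : ℝ) ≤ c := by
  have hfin : min n₁ n₂ ≠ ⊤ := ne_top_of_lt h
  have h3 := value_min.{u} hs h1 h2 hfin
  obtain ⟨m, hm⟩ := ENat.ne_top_iff_exists.1 hfin
  rw [← hm] at h3 h
  have h4 : m < s + a := by exact_mod_cast h
  have h5 : (m : ℝ) ≤ s + a := by exact_mod_cast h4.le
  exact ⟨m, h3, by linarith⟩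

/-- **B_UPL** -/
theorem upl (sid : SIDStmt) (cwv : CWVStmt.{u}) (hanb : ANBStmt) (bas : BASStmt) :
    UPLStmt.{u} := by
  intro s n₁ n₂ hs h1 h2
  have hs1 : 1 ≤ s := by omega
  obtain ⟨a₁, N₁, r₁, I₁, y₁, ha1, hc1, hr1, hr1', hb1, halt1⟩ := sid s n₁ hs h1
  obtain ⟨a₂, N₂, r₂, I₂, y₂, ha2, hc2, hr2, hr2', hb2, halt2⟩ := sid s n₂ hs h2
  obtain ⟨hθ, -, -, -⟩ := bas s n₁ n₂ hs1 h1.le h2.le
  have hs0 : (0 : ℝ) ≤ s := Nat.cast_nonneg s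
  have hlead : (s : ℝ) ≤ lead s n₁ n₂ := by
    unfold lead
    nlinarith
  have ha1' : (1 : ℝ) ≤ a₁ := by exact_mod_cast ha1
  have ha2' : (1 : ℝ) ≤ a₂ := by exact_mod_cast ha2
  rcases halt1 with hA | ⟨hN1, hI1, hI1c, hI10, hy1, hsum1, hcov1⟩
  · exact upl_min hs1 h1.le h2.le (by linarith) (lt_of_le_of_lt (min_le_left _ _) hA)
  rcases halt2 with hA | ⟨hN2, hI2, hI2c, hI20, hy2, hsum2, hcov2⟩
  · exact upl_min (a := a₂) hs1 h1.le h2.le (by linarith) (lt_of_le_of_lt (min_le_right _ _) hA)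
  have hD : 0 < 1 - r₁ * r₂ := pw_lt hr1 hr1' hr2'
  set α := (1 - r₂) / (1 - r₁ * r₂) with hα
  set β := (1 - r₁) / (1 - r₁ * r₂) with hβ
  have hα0 : 0 ≤ α := div_nonneg (by linarith) hD.le
  have hβ0 : 0 ≤ β := div_nonneg (by linarith) hD.le
  have hα1 : α ≤ 1 := by
    rw [hα, div_le_one hD]
    nlinarith
  have hβ1 : β ≤ 1 := by
    rw [hβ, div_le_one hD]
    nlinarith
  have e1 : α * r₁ + β = 1 := by
    rw [hα, hβ, div_mul_eq_mul_div, ← add_div, div_eq_one_iff_eq hD.ne']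
    ring
  have e2 : β * r₂ + α = 1 := by
    rw [hα, hβ, div_mul_eq_mul_div, ← add_div, div_eq_one_iff_eq hD.ne']
    ring
  have e3 : α + β = fr r₁ r₂ := by
    rw [hα, hβ, ← add_div, fr]
    congr 1
    ring
  have y1le : ∀ j, j < a₁ → y₁ j ≤ 1 := by
    intro j hj
    rw [← hsum1]
    exact Finset.single_le_sum (fun i hi => hy1 i (Finset.mem_range.1 hi)) (Finset.mem_range.2 hj)
  have y2le : ∀ j, j < a₂ → y₂ j ≤ 1 := by
    intro j hj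
    rw [← hsum2]
    exact Finset.single_le_sum (fun i hi => hy2 i (Finset.mem_range.1 hi)) (Finset.mem_range.2 hj)
  have hS : 0 ≤ (s : ℝ) - 1 := by
    have : (1 : ℝ) ≤ s := by exact_mod_cast hs1
    linarith
  have hx : 0 ≤ ((s : ℝ) - 1) * fr r₁ r₂ + a₁ + a₂ := by
    have := mul_nonneg hS (fr_nonneg hr1 hr1' hr2')
    positivity
  obtain ⟨v, hv, hval⟩ := cwv s a₁ a₂ ⌊((s : ℝ) - 1) * fr r₁ r₂ + a₁ + a₂⌋₊ N₁ N₂ I₁ I₂
    (fun j => α * y₁ j) (fun j => β * y₂ j) hs1 ha1 ha2 hI1 hI1c hI10 hI2 hI2c hI20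
    (fun j hj => ⟨mul_nonneg hα0 (hy1 j hj), mul_le_one₀ hα1 (hy1 j hj) (y1le j hj)⟩)
    (fun j hj => ⟨mul_nonneg hβ0 (hy2 j hj), mul_le_one₀ hβ1 (hy2 j hj) (y2le j hj)⟩)
    (by
      intro t ht
      rw [← Finset.mul_sum, ← Finset.mul_sum, hsum2, mul_one, ← e1]
      have := mul_le_mul_of_nonneg_left (hcov1 t ht) hα0
      linarith)
    (by
      intro t ht
      rw [← Finset.mul_sum, ← Finset.mul_sum, hsum1, mul_one, ← e2]
      have := mul_le_mul_of_nonneg_left (hcov2 t ht) hβ0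
      linarith)
    (by
      rw [← Finset.mul_sum, ← Finset.mul_sum, hsum1, hsum2, mul_one, mul_one, e3]
      exact Nat.lt_floor_add_one _)
  rw [hN1, hN2] at hval
  refine ⟨v, hval, ?_⟩
  have h3 : (v : ℝ) ≤ ((s : ℝ) - 1) * fr r₁ r₂ + a₁ + a₂ :=
    le_trans (by exact_mod_cast hv) (Nat.floor_le hx)
  have h4 := hanb s n₁ n₂ r₁ r₂ 1 1 hs1 h1 h2 hr1 hr1' hr2 hr2' zero_le_one zero_le_one hb1 hb2
  linarith

end Pool.Agent.SHA.H17
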