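import Pool.Agent.SHA.Stmts

set_option autoImplicit false

namespace Pool.Agent.SHA.H17

open Pool.Agent.Helper18_Helly

universe u

theorem theta_le_one {s m n : ℕ} (hs : 1 ≤ s) (hm : s ≤ m) (hn : s ≤ n) (h : s ^ 2 < m * n) :
    theta s (m : ℕ∞) (n : ℕ∞) ≤ 1 := by
  rw [theta_coe hs hm hn]
  have h1 : (s : ℝ) ^ 2 < (m : ℝ) * n := by exact_mod_cast h
  have h2 : (s : ℝ) ≤ m := by exact_mod_cast hm
  have h3 : (s : ℝ) ≤ n := by exact_mod_cast hn
  have h4 : (0 : ℝ) ≤ s := by positivity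
  rw [div_le_one (by linarith)]
  nlinarith

open Classical in
theorem lo2 (ld2 : LD2Stmt.{u}) (ptx : PTXStmt.{u}) : LO2Stmt.{u} := by
  intro U X s S₁ S₂ Q y hs hS1 hS2 hD hX1 hX2 hP hQ hy hyQ hys
  obtain ⟨W, hWX, hWc, hW1, -⟩ := hP.exists_finset
  have hWO : ∀ O ∈ Q, (W.filter (fun f => f ∈ O)).card = 1 := by
    intro O hO
    have h1 := Finset.card_filter_add_card_filter_not (s := W) (fun f => f ∈ O)
    have h2 := hW1 O hO
    omega
  have hsR : (1 : ℝ) ≤ s := by exact_mod_cast hs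
  have hs0 : (0 : ℝ) < s := by linarith
  set c : ℝ := ((s : ℝ) - 1 - 2 * y ^ 2) / s with hc
  have hcs : c * s = (s : ℝ) - 1 - 2 * y ^ 2 := div_mul_cancel₀ _ hs0.ne'
  have hc0 : 0 ≤ c := div_nonneg (by linarith) hs0.le
  have hy2 : 0 ≤ y ^ 2 := sq_nonneg y
  have hc1 : c ≤ 1 := by
    rw [hc, div_le_one hs0]
    linarith
  obtain ⟨x, hx01, hload, htot⟩ := ptx U s S₁ S₂ W Q c hs hS1 hS2 hD hc0 hc1 hQ
  have hcast : ((s - 1 : ℕ) : ℝ) = (s : ℝ) - 1 := by
    rw [Nat.cast_sub hs]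
    simp
  obtain ⟨T', hT'F, hT'O, hT'c⟩ := ld2 U ((S₁ ∪ S₂) \ W) Q x (s - 1) y hy hyQ
    (fun f _ => hx01 f) (fun O hO => by
      rw [hcast]
      have := hload O hO
      linarith)
  have hdisj : Disjoint T' W := by
    rw [Finset.disjoint_left]
    intro a ha haW
    exact (Finset.mem_sdiff.1 (hT'F ha)).2 haW
  refine ⟨T' ∪ W, ?_, ?_, ?_⟩
  · intro a ha
    rw [Finset.mem_coe, Finset.mem_union] at ha
    rcases ha with ha | ha
    · rcases Finset.mem_union.1 (Finset.mem_sdiff.1 (hT'F ha)).1 with h | h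
      · exact hX1 h
      · exact hX2 h
    · exact hWX ha
  · intro O hO
    rw [Finset.filter_union]
    refine (Finset.card_union_le _ _).trans ?_
    rw [hWO O hO]
    have := hT'O O hO
    omega
  · rw [Finset.card_union_of_disjoint hdisj, hWc]
    push_cast
    have hθ := theta_le_one hs hS1 hS2 hD
    have hlead : lead s (S₁.card : ℕ∞) (S₂.card : ℕ∞) =
        s * (1 + theta s (S₁.card : ℕ∞) (S₂.card : ℕ∞)) := rfl
    rw [hWc] at htot
    generalize theta s (S₁.card : ℕ∞) (S₂.card : ℕ∞) = θ at *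
    generalize lead s (S₁.card : ℕ∞) (S₂.card : ℕ∞) = L at *
    have hk : (0 : ℝ) ≤ (1 - θ) * Q.card := mul_nonneg (by linarith) (by positivity)
    have e1 : c * (L - (1 - θ) * Q.card) = (L - (1 - θ) * Q.card) -
        (1 + 2 * y ^ 2) * ((L - (1 - θ) * Q.card) / s) := by
      rw [hc]
      field_simp
      ring
    have e2 : (L - (1 - θ) * Q.card) / s ≤ 1 + θ := by
      rw [div_le_iff₀ hs0, hlead]
      linarith
    have e3 : (1 + 2 * y ^ 2) * ((L - (1 - θ) * Q.card) / s) ≤ (1 + 2 * y ^ 2) * (1 + θ) :=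
      mul_le_mul_of_nonneg_left e2 (by linarith)
    linarith

end Pool.Agent.SHA.H17
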